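import Pool.Agent.Helper68.SK.Goals

/-!
# Project SK, packet EXC: one-sided exchange for `SS g`
-/

set_option autoImplicit false

namespace Pool.Agent.Helper12.SK

open Finset Pool.Agent.Helper68.SK

theorem hit_union {V E : Type} [DecidableEq V] (g : E → V × V) (U U' : Finset V) (a : V ⊕ E) :
    hit g (U ∪ U') a ↔ hit g U a ∨ hit g U' a := by
  rcases a with v | e
  · simp [hit]
  · simp only [hit, Finset.mem_union]
    tauto

theorem hit_mono {V E : Type} (g : E → V × V) {U U' : Finset V} (h : U ⊆ U') {a : V ⊕ E}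
    (ha : hit g U a) : hit g U' a := by
  rcases a with v | e
  · exact h ha
  · exact ha.imp (fun h1 => h h1) (fun h1 => h h1)

theorem hit_univ {V E : Type} [Fintype V] (g : E → V × V) (a : V ⊕ E) : hit g univ a := by
  rcases a with v | e
  · exact Finset.mem_univ v
  · exact Or.inl (Finset.mem_univ _)

theorem exc : GoalExc := by
  intro hsub V E _ _ _ _ g z hz w hw u hu
  obtain ⟨-, h2, -, h4, h5, h6, h7⟩ := hsub.1 V E g z
  by_contra hcon
  push Not at hcon
  -- tight sets
  have htight : ∀ y, z y < w y → ∃ U : Finset V, mass g z U = 0 ∧ hit g U y ∧ ¬ hit g U u := by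
    intro y hy
    have hn := hcon y hy
    by_contra hno
    push Not at hno
    apply hn
    obtain ⟨-, -, -, h4', -, -, h7'⟩ := hsub.1 V E g (z - δ u)
    obtain ⟨-, -, -, -, -, -, h7''⟩ := hsub.1 V E g (z - δ u + δ y)
    refine ⟨⟨?_, ?_⟩, ?_⟩
    · rw [← h7'', h4', if_pos (hit_univ g y), h5, if_pos (hit_univ g u), h7, hz.1.1]
      ring
    · intro U hU hU'
      rw [h4', h5]
      have hm := hz.1.2 U hU hU'
      by_cases hyU : hit g U y
      · by_cases huU : hit g U u
        · rw [if_pos hyU, if_pos huU]
          linarith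
        · rw [if_pos hyU, if_neg huU]
          have : mass g z U ≠ 0 := fun h0 => huU (hno U h0 hyU)
          omega
      · rw [if_neg hyU]
        split_ifs <;> omega
    · intro e
      have he := hz.2 e
      simp only [Pi.add_apply, Pi.sub_apply, δ, Pi.single_apply]
      by_cases hye : (Sum.inr e : V ⊕ E) = y
      · rw [if_pos hye]
        have h8 := hw.2 e
        rw [← hye] at hy
        split_ifs <;> omega
      · rw [if_neg hye]
        split_ifs <;> omega
  -- the union of the tight sets
  have hnuniv : ∀ U : Finset V, ¬ hit g U u → U ≠ univ := by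
    rintro U hU rfl
    exact hU (hit_univ g u)
  have hP : ∀ U U' : Finset V, (mass g z U = 0 ∧ ¬ hit g U u) → (mass g z U' = 0 ∧ ¬ hit g U' u) →
      (mass g z (U ∪ U') = 0 ∧ ¬ hit g (U ∪ U') u) := by
    rintro U U' ⟨ha, hb⟩ ⟨ha', hb'⟩
    have hu' : ¬ hit g (U ∪ U') u := by
      rw [hit_union]
      tauto
    have hle : ∀ U'' : Finset V, U'' ≠ univ → mass g z U'' ≤ 0 := by
      intro U'' hne
      rcases U''.eq_empty_or_nonempty with h | h
      · rw [h, h6]
      · exact hz.1.2 U'' h hne
    have hi : U ∩ U' ≠ univ := by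
      intro h
      apply hnuniv U hb
      rw [Finset.eq_univ_iff_forall]
      intro x
      exact Finset.mem_of_mem_inter_left (h ▸ Finset.mem_univ x : x ∈ U ∩ U')
    have h8 := h2 U U' hz.2
    have h9 := hle _ hi
    have h10 := hle _ (hnuniv _ hu')
    exact ⟨by omega, hu'⟩
  let W : Finset V := (univ.filter fun U : Finset V => mass g z U = 0 ∧ ¬ hit g U u).sup id
  have hW : mass g z W = 0 ∧ ¬ hit g W u := by
    refine Finset.sup_induction (p := fun U => mass g z U = 0 ∧ ¬ hit g U u) ?_ ?_ ?_
    · refine ⟨h6, ?_⟩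
      rcases u with v | e
      · simp [hit]
      · simp [hit]
    · intro a ha b hb
      exact hP a b ha hb
    · intro b hb
      exact (Finset.mem_filter.1 hb).2
  have hhit : ∀ y, z y < w y → hit g W y := by
    intro y hy
    obtain ⟨U, hU1, hU2, hU3⟩ := htight y hy
    have hle : U ≤ W := Finset.le_sup (f := id) (Finset.mem_filter.2 ⟨Finset.mem_univ _, hU1, hU3⟩)
    exact hit_mono g hle hU2
  have hwW : mass g w W ≤ 0 := by
    rcases W.eq_empty_or_nonempty with h | h
    · rw [h]
      exact ((hsub.1 V E g w).2.2.2.2.2.1).le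
    · exact hw.1.2 W h (hnuniv W hW.2)
  have hsum : ∑ a, (if hit g W a then 0 else (w a - z a)) = mass g z W - mass g w W := by
    have h8 : ∀ a, (if hit g W a then 0 else (w a - z a)) = (w a - z a) -
        ((if hit g W a then w a else 0) - (if hit g W a then z a else 0)) := by
      intro a
      split_ifs <;> ring
    simp_rw [h8]
    rw [Finset.sum_sub_distrib, Finset.sum_sub_distrib, Finset.sum_sub_distrib, hw.1.1, hz.1.1]
    unfold mass
    ring
  have hneg : ∑ a, (if hit g W a then 0 else (w a - z a)) < 0 := by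
    refine Finset.sum_neg' ?_ ?_
    · intro a _
      by_cases h : hit g W a
      · rw [if_pos h]
      · rw [if_neg h]
        by_contra hc
        exact h (hhit a (by omega))
    · exact ⟨u, Finset.mem_univ u, by rw [if_neg hW.2]; omega⟩
  rw [hsum, hW.1] at hneg
  omega

end Pool.Agent.Helper12.SK
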